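import Mathlib

/-!
# The finite inequality behind the six-dimensional volume bound

`u` is the excess of the sectional curvature bound over the mean, `a, …, e ≥ 0` are the excesses of the
bound over the eigenvalues of the Jacobi operator at a unit vector, and `vab, …` those over the sectional
curvatures of the planes spanned by the eigenvectors.
-/

set_option autoImplicit false

open scoped BigOperators

namespace Pool.Agent.H31EE

/-- the elementary inequality on the trace-free spectrum: if `s₁, …, s₅ ≤ 1` have sum zero then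
`(∑ s²)² + 25 ∑ s² + 15 ∑ s³ ≥ 0` -/
theorem quart (a b c d e : ℝ) (ha : a ≤ 1) (hb : b ≤ 1) (hc : c ≤ 1) (hd : d ≤ 1) (he : e ≤ 1)
    (hs : a + b + c + d + e = 0) :
    0 ≤ (a ^ 2 + b ^ 2 + c ^ 2 + d ^ 2 + e ^ 2) ^ 2 + 25 * (a ^ 2 + b ^ 2 + c ^ 2 + d ^ 2 + e ^ 2)
      + 15 * (a ^ 3 + b ^ 3 + c ^ 3 + d ^ 3 + e ^ 3) := by
  set S := a ^ 2 + b ^ 2 + c ^ 2 + d ^ 2 + e ^ 2 with hS
  have hS0 : 0 ≤ S := by positivity
  set x := Real.sqrt (S / 20) with hx
  have hx0 : 0 ≤ x := Real.sqrt_nonneg _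
  have hx2 : x ^ 2 = S / 20 := Real.sq_sqrt (by positivity)
  have hSx : S = 20 * x ^ 2 := by rw [hx2]; ring
  have hS20 : S ≤ 20 := by
    have h1 : 0 ≤ (a + 4) * (1 - a) := mul_nonneg (by linarith) (by linarith)
    have h2 : 0 ≤ (b + 4) * (1 - b) := mul_nonneg (by linarith) (by linarith)
    have h3 : 0 ≤ (c + 4) * (1 - c) := mul_nonneg (by linarith) (by linarith)
    have h4 : 0 ≤ (d + 4) * (1 - d) := mul_nonneg (by linarith) (by linarith)
    have h5 : 0 ≤ (e + 4) * (1 - e) := mul_nonneg (by linarith) (by linarith)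
    nlinarith [h1, h2, h3, h4, h5]
  have hx1 : x ≤ 1 := by
    nlinarith [hx0, hx2, hS20]
  have key : ∀ t p q r w : ℝ, t + p + q + r + w = 0 →
      t ^ 2 + p ^ 2 + q ^ 2 + r ^ 2 + w ^ 2 = S → 0 ≤ t + 4 * x := by
    intro t p q r w h h'
    have h1 : t ^ 2 ≤ (4 * x) ^ 2 := by
      have h2 : t ^ 2 ≤ 4 * (p ^ 2 + q ^ 2 + r ^ 2 + w ^ 2) := by
        have : t = -(p + q + r + w) := by linarith
        rw [this]
        nlinarith [sq_nonneg (p - q), sq_nonneg (p - r), sq_nonneg (p - w), sq_nonneg (q - r),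
          sq_nonneg (q - w), sq_nonneg (r - w)]
      nlinarith
    have h3 := abs_le_of_sq_le_sq' h1 (by positivity)
    linarith [h3.1]
  have ka := key a b c d e hs hS.symm
  have kb := key b a c d e (by linarith) (by rw [hS]; ring)
  have kc := key c a b d e (by linarith) (by rw [hS]; ring)
  have kd := key d a b c e (by linarith) (by rw [hS]; ring)
  have ke := key e a b c d (by linarith) (by rw [hS]; ring)
  have hcub : -(60 * x ^ 3) ≤ a ^ 3 + b ^ 3 + c ^ 3 + d ^ 3 + e ^ 3 := by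
    have h1 := mul_nonneg ka (sq_nonneg (a - x))
    have h2 := mul_nonneg kb (sq_nonneg (b - x))
    have h3 := mul_nonneg kc (sq_nonneg (c - x))
    have h4 := mul_nonneg kd (sq_nonneg (d - x))
    have h5 := mul_nonneg ke (sq_nonneg (e - x))
    have id1 : (a + 4 * x) * (a - x) ^ 2 + (b + 4 * x) * (b - x) ^ 2 + (c + 4 * x) * (c - x) ^ 2
        + (d + 4 * x) * (d - x) ^ 2 + (e + 4 * x) * (e - x) ^ 2 =
        a ^ 3 + b ^ 3 + c ^ 3 + d ^ 3 + e ^ 3 + 2 * x * S - 7 * x ^ 2 * (a + b + c + d + e)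
          + 20 * x ^ 3 := by
      rw [hS]; ring
    rw [hs, hSx] at id1
    nlinarith
  rw [hSx]
  have hfin : 0 ≤ 100 * x ^ 2 * ((1 - x) * (5 - 4 * x)) :=
    mul_nonneg (by positivity) (mul_nonneg (by linarith) (by linarith))
  nlinarith

/-- the same with arbitrary scale -/
theorem quart' (u a b c d e : ℝ) (hu : 0 ≤ u) (ha : a ≤ u) (hb : b ≤ u) (hc : c ≤ u) (hd : d ≤ u)
    (he : e ≤ u) (hs : a + b + c + d + e = 0) :
    0 ≤ (a ^ 2 + b ^ 2 + c ^ 2 + d ^ 2 + e ^ 2) ^ 2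
      + 25 * u ^ 2 * (a ^ 2 + b ^ 2 + c ^ 2 + d ^ 2 + e ^ 2)
      + 15 * u * (a ^ 3 + b ^ 3 + c ^ 3 + d ^ 3 + e ^ 3) := by
  rcases eq_or_lt_of_le hu with h0 | h0
  · rw [← h0]
    have : 0 ≤ (a ^ 2 + b ^ 2 + c ^ 2 + d ^ 2 + e ^ 2) ^ 2 := by positivity
    linarith
  · have h := quart (a / u) (b / u) (c / u) (d / u) (e / u) ((div_le_one h0).2 ha)
      ((div_le_one h0).2 hb) ((div_le_one h0).2 hc) ((div_le_one h0).2 hd)
      ((div_le_one h0).2 he) (by rw [← add_div, ← add_div, ← add_div, ← add_div, hs, zero_div])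
    have h4 : 0 ≤ u ^ 4 := by positivity
    have h1 := mul_nonneg h4 h
    have e1 : u ^ 4 * (((a / u) ^ 2 + (b / u) ^ 2 + (c / u) ^ 2 + (d / u) ^ 2 + (e / u) ^ 2) ^ 2
        + 25 * ((a / u) ^ 2 + (b / u) ^ 2 + (c / u) ^ 2 + (d / u) ^ 2 + (e / u) ^ 2)
        + 15 * ((a / u) ^ 3 + (b / u) ^ 3 + (c / u) ^ 3 + (d / u) ^ 3 + (e / u) ^ 3)) =
        (a ^ 2 + b ^ 2 + c ^ 2 + d ^ 2 + e ^ 2) ^ 2
      + 25 * u ^ 2 * (a ^ 2 + b ^ 2 + c ^ 2 + d ^ 2 + e ^ 2)
      + 15 * u * (a ^ 3 + b ^ 3 + c ^ 3 + d ^ 3 + e ^ 3) := by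
      field_simp
    rw [e1] at h1
    exact h1

/-- the mixed products -/
theorem mixed (z x y v : ℝ) (hv : 0 ≤ v) :
    (x ^ 2 + y ^ 2) / 2 * v - ((x - z) ^ 2 + (y - z) ^ 2) * v ≤ x * y * v := by
  have h : 0 ≤ (x + y - 2 * z) ^ 2 * v := mul_nonneg (sq_nonneg _) hv
  nlinarith

/-- the power sum identity -/
theorem powid (u z T a b c d e : ℝ) (hs : a + b + c + d + e = 5 * u)
    (hT : T = (u - a) ^ 2 + (u - b) ^ 2 + (u - c) ^ 2 + (u - d) ^ 2 + (u - e) ^ 2)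
    (hz : u * z = u ^ 2 - T / 20) :
    5 * u * (((a * (b - c) ^ 2 + b * (a - c) ^ 2 + c * (a - b) ^ 2)
        + (a * (b - d) ^ 2 + b * (a - d) ^ 2 + d * (a - b) ^ 2)
        + (a * (b - e) ^ 2 + b * (a - e) ^ 2 + e * (a - b) ^ 2)
        + (a * (c - d) ^ 2 + c * (a - d) ^ 2 + d * (a - c) ^ 2)
        + (a * (c - e) ^ 2 + c * (a - e) ^ 2 + e * (a - c) ^ 2)
        + (a * (d - e) ^ 2 + d * (a - e) ^ 2 + e * (a - d) ^ 2)
        + (b * (c - d) ^ 2 + c * (b - d) ^ 2 + d * (b - c) ^ 2)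
        + (b * (c - e) ^ 2 + c * (b - e) ^ 2 + e * (b - c) ^ 2)
        + (b * (d - e) ^ 2 + d * (b - e) ^ 2 + e * (b - d) ^ 2)
        + (c * (d - e) ^ 2 + d * (c - e) ^ 2 + e * (c - d) ^ 2))
        + 2 * ((5 * u - a) * (a ^ 2 - 2 * (a - z) ^ 2) + (5 * u - b) * (b ^ 2 - 2 * (b - z) ^ 2)
        + (5 * u - c) * (c ^ 2 - 2 * (c - z) ^ 2) + (5 * u - d) * (d ^ 2 - 2 * (d - z) ^ 2)
        + (5 * u - e) * (e ^ 2 - 2 * (e - z) ^ 2))
        - 4 * u * (a * b + a * c + a * d + a * e + b * c + b * d + b * e + c * d + c * e + d * e)) =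
        T ^ 2 + 25 * u ^ 2 * T
        + 15 * u * ((u - a) ^ 3 + (u - b) ^ 3 + (u - c) ^ 3 + (u - d) ^ 3 + (u - e) ^ 3) := by
  have he : e = 5 * u - a - b - c - d := by linarith
  subst he
  subst hT
  linear_combination (1000 * u ^ 2 - 40 * (a ^ 2 + b ^ 2 + c ^ 2 + d ^ 2
    + (5 * u - a - b - c - d) ^ 2) - 400 * (u * z + (u ^ 2 - ((u - a) ^ 2 + (u - b) ^ 2
    + (u - c) ^ 2 + (u - d) ^ 2 + (u - (5 * u - a - b - c - d)) ^ 2) / 20))) * hz

/-- the key inequality -/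
theorem key (u a b c d e : ℝ) (vab vac vad vae vbc vbd vbe vcd vce vde : ℝ) (hu : 0 ≤ u)
    (ha : 0 ≤ a) (hb : 0 ≤ b) (hc : 0 ≤ c) (hd : 0 ≤ d) (he : 0 ≤ e)
    (h1 : 0 ≤ vab) (h2 : 0 ≤ vac) (h3 : 0 ≤ vad) (h4 : 0 ≤ vae) (h5 : 0 ≤ vbc) (h6 : 0 ≤ vbd)
    (h7 : 0 ≤ vbe) (h8 : 0 ≤ vcd) (h9 : 0 ≤ vce) (h10 : 0 ≤ vde)
    (ra : vab + vac + vad + vae = 5 * u - a) (rb : vab + vbc + vbd + vbe = 5 * u - b)
    (rc : vac + vbc + vcd + vce = 5 * u - c) (rd : vad + vbd + vcd + vde = 5 * u - d)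
    (re : vae + vbe + vce + vde = 5 * u - e) (hs : a + b + c + d + e = 5 * u) :
    4 * u * (a * b + a * c + a * d + a * e + b * c + b * d + b * e + c * d + c * e + d * e) ≤
      ((a * (b - c) ^ 2 + b * (a - c) ^ 2 + c * (a - b) ^ 2)
        + (a * (b - d) ^ 2 + b * (a - d) ^ 2 + d * (a - b) ^ 2)
        + (a * (b - e) ^ 2 + b * (a - e) ^ 2 + e * (a - b) ^ 2)
        + (a * (c - d) ^ 2 + c * (a - d) ^ 2 + d * (a - c) ^ 2)
        + (a * (c - e) ^ 2 + c * (a - e) ^ 2 + e * (a - c) ^ 2)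
        + (a * (d - e) ^ 2 + d * (a - e) ^ 2 + e * (a - d) ^ 2)
        + (b * (c - d) ^ 2 + c * (b - d) ^ 2 + d * (b - c) ^ 2)
        + (b * (c - e) ^ 2 + c * (b - e) ^ 2 + e * (b - c) ^ 2)
        + (b * (d - e) ^ 2 + d * (b - e) ^ 2 + e * (b - d) ^ 2)
        + (c * (d - e) ^ 2 + d * (c - e) ^ 2 + e * (c - d) ^ 2))
      + 4 * (a * b * vab + a * c * vac + a * d * vad + a * e * vae + b * c * vbc + b * d * vbd
        + b * e * vbe + c * d * vcd + c * e * vce + d * e * vde) := by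
  rcases eq_or_lt_of_le hu with h0 | h0
  · have ha' : a = 0 := by linarith
    have hb' : b = 0 := by linarith
    have hc' : c = 0 := by linarith
    have hd' : d = 0 := by linarith
    have he' : e = 0 := by linarith
    rw [ha', hb', hc', hd', he']
    simp
  · set T := (u - a) ^ 2 + (u - b) ^ 2 + (u - c) ^ 2 + (u - d) ^ 2 + (u - e) ^ 2 with hT
    set z := u - T / (20 * u) with hz
    have hzu : u * z = u ^ 2 - T / 20 := by
      rw [hz]; field_simp
    have m1 := mixed z a b vab h1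
    have m2 := mixed z a c vac h2
    have m3 := mixed z a d vad h3
    have m4 := mixed z a e vae h4
    have m5 := mixed z b c vbc h5
    have m6 := mixed z b d vbd h6
    have m7 := mixed z b e vbe h7
    have m8 := mixed z c d vcd h8
    have m9 := mixed z c e vce h9
    have m10 := mixed z d e vde h10
    have hq := quart' u (u - a) (u - b) (u - c) (u - d) (u - e) hu (by linarith) (by linarith)
      (by linarith) (by linarith) (by linarith) (by linarith)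
    have hlow : (5 * u - a) * (a ^ 2 - 2 * (a - z) ^ 2) + (5 * u - b) * (b ^ 2 - 2 * (b - z) ^ 2)
        + (5 * u - c) * (c ^ 2 - 2 * (c - z) ^ 2) + (5 * u - d) * (d ^ 2 - 2 * (d - z) ^ 2)
        + (5 * u - e) * (e ^ 2 - 2 * (e - z) ^ 2) ≤
        2 * (a * b * vab + a * c * vac + a * d * vad + a * e * vae + b * c * vbc + b * d * vbd
        + b * e * vbe + c * d * vcd + c * e * vce + d * e * vde) := by
      rw [← ra, ← rb, ← rc, ← rd, ← re]
      linarith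
    have hmain := powid u z T a b c d e hs hT hzu
    rw [← hT] at hq
    have h5 : 0 < 5 * u := by positivity
    have hpos := hmain ▸ hq
    have h6 := nonneg_of_mul_nonneg_right hpos h5
    linarith

end Pool.Agent.H31EE
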