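import Pool.Agent.H31EE.Fin

/-!
# The finite inequality behind the six-dimensional volume bound, in terms of the eigenvalues
-/

set_option autoImplicit false

open scoped BigOperators

namespace Pool.Agent.H31EE

theorem core (k a b c d e : ℝ) (vab vac vad vae vbc vbd vbe vcd vce vde : ℝ) (hk : 1 ≤ k)
    (ha : 0 ≤ a) (hb : 0 ≤ b) (hc : 0 ≤ c) (hd : 0 ≤ d) (he : 0 ≤ e)
    (h1 : 0 ≤ vab) (h2 : 0 ≤ vac) (h3 : 0 ≤ vad) (h4 : 0 ≤ vae) (h5 : 0 ≤ vbc) (h6 : 0 ≤ vbd)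
    (h7 : 0 ≤ vbe) (h8 : 0 ≤ vcd) (h9 : 0 ≤ vce) (h10 : 0 ≤ vde)
    (ra : vab + vac + vad + vae = 5 * k - 5 - a) (rb : vab + vbc + vbd + vbe = 5 * k - 5 - b)
    (rc : vac + vbc + vcd + vce = 5 * k - 5 - c) (rd : vad + vbd + vcd + vde = 5 * k - 5 - d)
    (re : vae + vbe + vce + vde = 5 * k - 5 - e) (hs : a + b + c + d + e = 5 * k - 5) :
    135 + (212 - 176 * k) * ((k - 1 - a) ^ 2 + (k - 1 - b) ^ 2 + (k - 1 - c) ^ 2
        + (k - 1 - d) ^ 2 + (k - 1 - e) ^ 2) ≤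
      1875 - 300 * ((k - a) ^ 2 + (k - b) ^ 2 + (k - c) ^ 2 + (k - d) ^ 2 + (k - e) ^ 2)
      + 80 * ((k - a) ^ 3 + (k - b) ^ 3 + (k - c) ^ 3 + (k - d) ^ 3 + (k - e) ^ 3)
      - 64 * ((k - a) * (k - b) * (k - vab) + (k - a) * (k - c) * (k - vac)
        + (k - a) * (k - d) * (k - vad) + (k - a) * (k - e) * (k - vae)
        + (k - b) * (k - c) * (k - vbc) + (k - b) * (k - d) * (k - vbd)
        + (k - b) * (k - e) * (k - vbe) + (k - c) * (k - d) * (k - vcd)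
        + (k - c) * (k - e) * (k - vce) + (k - d) * (k - e) * (k - vde)) := by
  have hkey := key (k - 1) a b c d e vab vac vad vae vbc vbd vbe vcd vce vde (by linarith)
    ha hb hc hd he h1 h2 h3 h4 h5 h6 h7 h8 h9 h10 (by linarith) (by linarith) (by linarith)
    (by linarith) (by linarith) (by linarith)
  have id1 : 1875 - 300 * ((k - a) ^ 2 + (k - b) ^ 2 + (k - c) ^ 2 + (k - d) ^ 2 + (k - e) ^ 2)
      + 80 * ((k - a) ^ 3 + (k - b) ^ 3 + (k - c) ^ 3 + (k - d) ^ 3 + (k - e) ^ 3)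
      - 64 * ((k - a) * (k - b) * (k - vab) + (k - a) * (k - c) * (k - vac)
        + (k - a) * (k - d) * (k - vad) + (k - a) * (k - e) * (k - vae)
        + (k - b) * (k - c) * (k - vbc) + (k - b) * (k - d) * (k - vbd)
        + (k - b) * (k - e) * (k - vbe) + (k - c) * (k - d) * (k - vcd)
        + (k - c) * (k - e) * (k - vce) + (k - d) * (k - e) * (k - vde)) =
      (4375 - 12000 * k + 11280 * k ^ 2 - 3520 * k ^ 3)
      + (288 * k - 360) * (a * b + a * c + a * d + a * e + b * c + b * d + b * e + c * d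
        + c * e + d * e)
      + 16 * ((a * (b - c) ^ 2 + b * (a - c) ^ 2 + c * (a - b) ^ 2)
        + (a * (b - d) ^ 2 + b * (a - d) ^ 2 + d * (a - b) ^ 2)
        + (a * (b - e) ^ 2 + b * (a - e) ^ 2 + e * (a - b) ^ 2)
        + (a * (c - d) ^ 2 + c * (a - d) ^ 2 + d * (a - c) ^ 2)
        + (a * (c - e) ^ 2 + c * (a - e) ^ 2 + e * (a - c) ^ 2)
        + (a * (d - e) ^ 2 + d * (a - e) ^ 2 + e * (a - d) ^ 2)
        + (b * (c - d) ^ 2 + c * (b - d) ^ 2 + d * (b - c) ^ 2)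
        + (b * (c - e) ^ 2 + c * (b - e) ^ 2 + e * (b - c) ^ 2)
        + (b * (d - e) ^ 2 + d * (b - e) ^ 2 + e * (b - d) ^ 2)
        + (c * (d - e) ^ 2 + d * (c - e) ^ 2 + e * (c - d) ^ 2))
      + 64 * (a * b * vab + a * c * vac + a * d * vad + a * e * vae + b * c * vbc + b * d * vbd
        + b * e * vbe + c * d * vcd + c * e * vce + d * e * vde) := by
    linear_combination 32 * (k ^ 2 - 2 * k * a) * ra + 32 * (k ^ 2 - 2 * k * b) * rb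
      + 32 * (k ^ 2 - 2 * k * c) * rc + 32 * (k ^ 2 - 2 * k * d) * rd
      + 32 * (k ^ 2 - 2 * k * e) * re
      + (192 * (a * b + a * c + a * d + a * e + b * c + b * d + b * e + c * d
        + c * e + d * e) + 920 * k - 336 * k ^ 2
        + (304 * k - 300) * ((a + b + c + d + e) + (5 * k - 5))
        - 80 * ((a + b + c + d + e) ^ 2 + (a + b + c + d + e) * (5 * k - 5)
          + (5 * k - 5) ^ 2)) * hs
  have id2 : 135 + (212 - 176 * k) * ((k - 1 - a) ^ 2 + (k - 1 - b) ^ 2 + (k - 1 - c) ^ 2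
        + (k - 1 - d) ^ 2 + (k - 1 - e) ^ 2) =
      (4375 - 12000 * k + 11280 * k ^ 2 - 3520 * k ^ 3)
      + (352 * (k - 1) - 72) * (a * b + a * c + a * d + a * e + b * c + b * d + b * e + c * d
        + c * e + d * e) := by
    have he' : e = 5 * k - 5 - a - b - c - d := by linarith
    subst he'
    ring
  rw [id1, id2]
  linarith

theorem fin_ineq (k : ℝ) (hk : 1 ≤ k) (l : Fin 5 → ℝ) (K : Fin 5 → Fin 5 → ℝ)
    (hsym : ∀ i j, K i j = K j i) (hd : ∀ i, K i i = 0) (hK : ∀ i j, K i j ≤ k)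
    (hrow : ∀ i, ∑ j, K i j = 5 - l i) (hl : ∀ i, l i ≤ k) (hs : ∑ i, l i = 5) :
    135 + (212 - 176 * k) * (∑ i, l i ^ 2 - 5) ≤ 1875 - 300 * ∑ i, l i ^ 2 + 80 * ∑ i, l i ^ 3
      - 32 * ∑ i, ∑ j, l i * l j * K i j := by
  have r0 := hrow 0
  have r1 := hrow 1
  have r2 := hrow 2
  have r3 := hrow 3
  have r4 := hrow 4
  simp only [Fin.sum_univ_five] at r0 r1 r2 r3 r4 hs ⊢
  rw [hsym 1 0] at r1
  rw [hsym 2 0, hsym 2 1] at r2
  rw [hsym 3 0, hsym 3 1, hsym 3 2] at r3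
  rw [hsym 4 0, hsym 4 1, hsym 4 2, hsym 4 3] at r4
  rw [hsym 1 0, hsym 2 0, hsym 2 1, hsym 3 0, hsym 3 1, hsym 3 2, hsym 4 0, hsym 4 1, hsym 4 2,
    hsym 4 3]
  rw [hd 0] at r0
  rw [hd 1] at r1
  rw [hd 2] at r2
  rw [hd 3] at r3
  rw [hd 4] at r4
  rw [hd 0, hd 1, hd 2, hd 3, hd 4]
  have h := core k (k - l 0) (k - l 1) (k - l 2) (k - l 3) (k - l 4) (k - K 0 1) (k - K 0 2)
    (k - K 0 3) (k - K 0 4) (k - K 1 2) (k - K 1 3) (k - K 1 4) (k - K 2 3) (k - K 2 4)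
    (k - K 3 4) hk (sub_nonneg.2 (hl 0)) (sub_nonneg.2 (hl 1)) (sub_nonneg.2 (hl 2))
    (sub_nonneg.2 (hl 3)) (sub_nonneg.2 (hl 4)) (sub_nonneg.2 (hK 0 1)) (sub_nonneg.2 (hK 0 2))
    (sub_nonneg.2 (hK 0 3)) (sub_nonneg.2 (hK 0 4)) (sub_nonneg.2 (hK 1 2))
    (sub_nonneg.2 (hK 1 3)) (sub_nonneg.2 (hK 1 4)) (sub_nonneg.2 (hK 2 3))
    (sub_nonneg.2 (hK 2 4)) (sub_nonneg.2 (hK 3 4)) (by linarith) (by linarith) (by linarith)
    (by linarith) (by linarith) (by linarith)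
  simp only [sub_sub_cancel] at h
  have e2 : (k - 1 - (k - l 0)) ^ 2 + (k - 1 - (k - l 1)) ^ 2 + (k - 1 - (k - l 2)) ^ 2
      + (k - 1 - (k - l 3)) ^ 2 + (k - 1 - (k - l 4)) ^ 2 =
      l 0 ^ 2 + l 1 ^ 2 + l 2 ^ 2 + l 3 ^ 2 + l 4 ^ 2 - 5 := by
    linear_combination (-2) * hs
  rw [e2] at h
  refine h.trans (le_of_eq ?_)
  ring

/-- the variance of a spectrum of mean one bounded above by `k` -/
theorem var_le (k : ℝ) (l : Fin 5 → ℝ) (hl : ∀ i, l i ≤ k) (hs : ∑ i, l i = 5) :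
    ∑ i, l i ^ 2 - 5 ≤ 20 * (k - 1) ^ 2 := by
  simp only [Fin.sum_univ_five] at hs ⊢
  have h := fun i => hl i
  have h0 := hl 0
  have h1 := hl 1
  have h2 := hl 2
  have h3 := hl 3
  have h4 := hl 4
  have m0 : 0 ≤ (l 0 - (5 - 4 * k)) * (k - l 0) := mul_nonneg (by linarith) (by linarith)
  have m1 : 0 ≤ (l 1 - (5 - 4 * k)) * (k - l 1) := mul_nonneg (by linarith) (by linarith)
  have m2 : 0 ≤ (l 2 - (5 - 4 * k)) * (k - l 2) := mul_nonneg (by linarith) (by linarith)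
  have m3 : 0 ≤ (l 3 - (5 - 4 * k)) * (k - l 3) := mul_nonneg (by linarith) (by linarith)
  have m4 : 0 ≤ (l 4 - (5 - 4 * k)) * (k - l 4) := mul_nonneg (by linarith) (by linarith)
  have e : (l 0 - (5 - 4 * k)) * (k - l 0) + (l 1 - (5 - 4 * k)) * (k - l 1)
      + (l 2 - (5 - 4 * k)) * (k - l 2) + (l 3 - (5 - 4 * k)) * (k - l 3)
      + (l 4 - (5 - 4 * k)) * (k - l 4) =
      20 * (k - 1) ^ 2 - (l 0 ^ 2 + l 1 ^ 2 + l 2 ^ 2 + l 3 ^ 2 + l 4 ^ 2 - 5) := by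
    linear_combination (5 - 3 * k) * hs
  linarith

end Pool.Agent.H31EE
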