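import Pool.Agent.W714.ES.Sharp
import Pool.Agent.H31EE.Pt

/-!
# The Gauss-Bonnet integrand of six-dimensional Einstein tensors is at least that of constant curvature
-/

set_option autoImplicit false

open scoped BigOperators

namespace Pool.Agent.H31EE

open Hopf6 Pool.Agent.W714.HE Pool.Agent.W714.ES

theorem ein_core {k : ℝ} (hk : 1 ≤ k) {R : Ten} (hR : IsCurv R)
    (hE : ∀ a b, Rc R a b = if a = b then 5 else 0)
    (h : ∀ z : Fin 6 → ℝ, ∑ a, z a ^ 2 = 1 → ∀ y, quad R z y ≤ k * area2 z y) :
    135 + (212 - 176 * k) * ((nS R - 60) / 32) ≤ 135 / 5760 * gb R ∧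
      (nS R - 60) / 32 ≤ 20 * (k - 1) ^ 2 := by
  obtain ⟨ι, _, ⟨D⟩⟩ := exists_design
  have hJJ : D.av (mJJ R) = 5 + (nS R - 60) / 32 := by
    rw [D.av_JJ hR, nR_ein hE]
    ring
  constructor
  · have h1 : 0 ≤ D.av (fun x => ff R x + (mJJ R x * (-(212 - 176 * k))
        + (5 * (212 - 176 * k) - 135))) :=
      D.av_nonneg fun i => by
        have := (ff_ge hk hR hE (D.unit i) h).1
        linarith
    have h2 : D.av (fun x => ff R x + (mJJ R x * (-(212 - 176 * k))
        + (5 * (212 - 176 * k) - 135))) = D.av (ff R) + (D.av (mJJ R) * (-(212 - 176 * k))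
          + (5 * (212 - 176 * k) - 135)) := by
      rw [Design.av_add, Design.av_add, Design.av_one, Design.av_mul]
    rw [h2, av_ff D hR hE, hJJ] at h1
    linarith
  · have h1 : 0 ≤ D.av (fun x => mJJ R x * (-1) + (5 + 20 * (k - 1) ^ 2)) :=
      D.av_nonneg fun i => by
        have := (ff_ge hk hR hE (D.unit i) h).2
        linarith
    have h2 : D.av (fun x => mJJ R x * (-1) + (5 + 20 * (k - 1) ^ 2)) =
        D.av (mJJ R) * (-1) + (5 + 20 * (k - 1) ^ 2) := by
      rw [Design.av_add, Design.av_one, Design.av_mul]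
    rw [h2, hJJ] at h1
    linarith

section
variable {V : Type*} [NormedAddCommGroup V] [InnerProductSpace ℝ V]

/-- The squared norm of the difference of `R` and the curvature tensor of constant curvature `c`. When
the Ricci tensor of `R` is that of constant curvature `c`, this is the squared norm of the Weyl
tensor. -/
noncomputable def weylSq (e : OrthonormalBasis (Fin 6) ℝ V) (R : V → V → V → V → ℝ) (c : ℝ) : ℝ :=
  ∑ a, ∑ b, ∑ i, ∑ j, (R (e a) (e b) (e i) (e j) -
    c * (inner ℝ (e a) (e i) * inner ℝ (e b) (e j) - inner ℝ (e a) (e j) * inner ℝ (e b) (e i))) ^ 2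

variable (e : OrthonormalBasis (Fin 6) ℝ V) {R : V → V → V → V → ℝ}

theorem weylSq_nonneg (R : V → V → V → V → ℝ) (c : ℝ) : 0 ≤ weylSq e R c := by
  unfold weylSq
  positivity

theorem nS_weyl (hR : AlgCurv R) {c : ℝ} (hc : 0 < c) (hE : Einstein e R c) :
    nS (scl c⁻¹ (tn e R)) - 60 = weylSq e R c / c ^ 2 := by
  have hT := tn_curv e hR
  set T := tn e R with hTd
  have hsc : ∑ a, ∑ b, T a b a b = 30 * c := by
    have h1 : ∀ a, ∑ b, T a b a b = 5 * c := by
      intro a
      have h2 := Rc_ein e hR hc hE a a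
      rw [if_pos rfl] at h2
      unfold Rc scl at h2
      rw [← Finset.mul_sum] at h2
      have h3 : ∑ b, T a b a b = c * (c⁻¹ * ∑ b, T a b a b) := by field_simp
      rw [h3, h2]
      ring
    simp only [h1]
    simp
    ring
  have hD : ∀ a b i j : Fin 6, inner ℝ (e a) (e i) * inner ℝ (e b) (e j)
      - inner ℝ (e a) (e j) * inner ℝ (e b) (e i) =
      ((if a = i then (1 : ℝ) else 0) * (if b = j then 1 else 0)
        - (if a = j then 1 else 0) * (if b = i then 1 else 0)) := by
    intro a b i j
    simp only [orthonormal_iff_ite.1 e.orthonormal]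
  have hw : weylSq e R c = nS T - 2 * c * (∑ a, ∑ b, ∑ i, ∑ j, T a b i j *
      ((if a = i then (1 : ℝ) else 0) * (if b = j then 1 else 0)
        - (if a = j then 1 else 0) * (if b = i then 1 else 0)))
      + c ^ 2 * (∑ a : Fin 6, ∑ b : Fin 6, ∑ i : Fin 6, ∑ j : Fin 6,
      ((if a = i then (1 : ℝ) else 0) * (if b = j then 1 else 0)
        - (if a = j then 1 else 0) * (if b = i then 1 else 0)) ^ 2) := by
    unfold weylSq nS
    simp only [Finset.mul_sum, ← Finset.sum_sub_distrib, ← Finset.sum_add_distrib]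
    refine Finset.sum_congr rfl fun a _ => Finset.sum_congr rfl fun b _ =>
      Finset.sum_congr rfl fun i _ => Finset.sum_congr rfl fun j _ => ?_
    rw [hD a b i j]
    have : R (e a) (e b) (e i) (e j) = T a b i j := rfl
    rw [this]
    ring
  have h1 : (∑ a, ∑ b, ∑ i, ∑ j, T a b i j *
      ((if a = i then (1 : ℝ) else 0) * (if b = j then 1 else 0)
        - (if a = j then 1 else 0) * (if b = i then 1 else 0))) = 60 * c := by
    have h2 : ∀ a b, ∑ i, ∑ j, T a b i j *
      ((if a = i then (1 : ℝ) else 0) * (if b = j then 1 else 0)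
        - (if a = j then 1 else 0) * (if b = i then 1 else 0)) = 2 * T a b a b := by
      intro a b
      have h3 : T a b b a = - T a b a b := by
        have := hT.pair a b b a
        have := hT.pair a b a b
        have := hT.anti b a a b
        linarith [hT.anti a b a b, hT.anti b a b a]
      have h4 : ∀ i, ∑ j, T a b i j *
        ((if a = i then (1 : ℝ) else 0) * (if b = j then 1 else 0)
          - (if a = j then 1 else 0) * (if b = i then 1 else 0)) =
          (if a = i then T a b i b else 0) - (if b = i then T a b i a else 0) := by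
        intro i
        simp only [mul_sub, Finset.sum_sub_distrib]
        congr 1
        · simp
        · simp
      simp only [h4, Finset.sum_sub_distrib]
      simp
      rw [h3]
      ring
    simp only [h2, ← Finset.mul_sum]
    rw [hsc]
    ring
  have h5 : (∑ a : Fin 6, ∑ b : Fin 6, ∑ i : Fin 6, ∑ j : Fin 6,
      ((if a = i then (1 : ℝ) else 0) * (if b = j then 1 else 0)
        - (if a = j then 1 else 0) * (if b = i then 1 else 0)) ^ 2) = 60 := by
    have h6 : ∀ a b : Fin 6, ∑ i : Fin 6, ∑ j : Fin 6,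
      ((if a = i then (1 : ℝ) else 0) * (if b = j then 1 else 0)
        - (if a = j then 1 else 0) * (if b = i then 1 else 0)) ^ 2 =
        2 - 2 * (if a = b then 1 else 0) := by
      intro a b
      have h7 : ∀ i j : Fin 6, ((if a = i then (1 : ℝ) else 0) * (if b = j then 1 else 0)
        - (if a = j then 1 else 0) * (if b = i then 1 else 0)) ^ 2 =
        (if a = i then (1 : ℝ) else 0) * (if b = j then 1 else 0)
        + (if a = j then 1 else 0) * (if b = i then 1 else 0)
        - 2 * ((if a = i then (1 : ℝ) else 0) * (if b = i then 1 else 0)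
          * ((if a = j then 1 else 0) * (if b = j then 1 else 0))) := by
        intro i j
        split_ifs <;> norm_num
      simp only [h7, Finset.sum_sub_distrib, Finset.sum_add_distrib, ← Finset.mul_sum]
      by_cases hab : a = b
      · subst hab
        simp
        norm_num
      · simp [hab]
        norm_num
    simp only [h6]
    simp
    norm_num
  have h8 : nS (scl c⁻¹ T) = nS T / c ^ 2 := by
    unfold nS scl
    simp only [Finset.sum_div]
    refine Finset.sum_congr rfl fun a _ => Finset.sum_congr rfl fun b _ =>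
      Finset.sum_congr rfl fun i _ => Finset.sum_congr rfl fun j _ => ?_
    field_simp
  rw [h8, hw, h1, h5]
  field_simp
  ring

/-- the difference to constant curvature is an algebraic curvature tensor -/
theorem diff_curv (hR : AlgCurv R) (c : ℝ) : AlgCurv (fun x y z w : V =>
    R x y z w - c * (inner ℝ x z * inner ℝ y w - inner ℝ x w * inner ℝ y z)) := by
  refine ⟨fun x x' y z w => ?_, fun t x y z w => ?_, fun x y z w => ?_, fun x y z w => ?_,
    fun x y z w => ?_⟩
  · simp only [hR.add, inner_add_left]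
    ring
  · simp only [hR.smul, real_inner_smul_left]
    ring
  · simp only [hR.anti x y z w]
    ring
  · simp only [hR.pair x y z w]
    rw [real_inner_comm x z, real_inner_comm y w, real_inner_comm y z, real_inner_comm x w]
    ring
  · have := hR.bianchi x y z w
    rw [real_inner_comm x y, real_inner_comm x z, real_inner_comm y z]
    linear_combination this

theorem eq_vc (x : V) : x = vc e (fun a => inner ℝ (e a) x) := by
  unfold vc
  exact (e.sum_repr' x).symm

/-- the squared norm of the Weyl tensor vanishes only for constant curvature -/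
theorem weylSq_zero (hR : AlgCurv R) {c : ℝ} (h : weylSq e R c = 0) (x y z w : V) :
    R x y z w = c * (inner ℝ x z * inner ℝ y w - inner ℝ x w * inner ℝ y z) := by
  have hS := diff_curv hR c
  set S : V → V → V → V → ℝ := fun x y z w : V =>
    R x y z w - c * (inner ℝ x z * inner ℝ y w - inner ℝ x w * inner ℝ y z) with hSd
  have h0 : ∀ a b i j, S (e a) (e b) (e i) (e j) = 0 := by
    intro a b i j
    unfold weylSq at h
    have h1 := (Finset.sum_eq_zero_iff_of_nonneg (fun a _ => by positivity)).1 h a
      (Finset.mem_univ _)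
    have h2 := (Finset.sum_eq_zero_iff_of_nonneg (fun a _ => by positivity)).1 h1 b
      (Finset.mem_univ _)
    have h3 := (Finset.sum_eq_zero_iff_of_nonneg (fun a _ => by positivity)).1 h2 i
      (Finset.mem_univ _)
    have h4 := (Finset.sum_eq_zero_iff_of_nonneg (fun a _ => by positivity)).1 h3 j
      (Finset.mem_univ _)
    exact pow_eq_zero_iff (two_ne_zero) |>.1 h4
  have h1 : S x y z w = 0 := by
    rw [eq_vc e x, eq_vc e y, eq_vc e z, eq_vc e w, lin1 e hS]
    refine Finset.sum_eq_zero fun a _ => ?_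
    rw [lin2 e hS]
    rw [Finset.sum_eq_zero (fun b _ => ?_), mul_zero]
    rw [lin3 e hS]
    rw [Finset.sum_eq_zero (fun i _ => ?_), mul_zero]
    rw [lin4 e hS]
    rw [Finset.sum_eq_zero (fun j _ => ?_), mul_zero]
    rw [h0, mul_zero]
  have h2 : R x y z w - c * (inner ℝ x z * inner ℝ y w - inner ℝ x w * inner ℝ y z) = 0 := h1
  linarith

/-- the bound in terms of the squared norm of the Weyl tensor, positive case -/
theorem gbc_pos {k : ℝ} (hk : 1 ≤ k) (hR : AlgCurv R) {c : ℝ} (hc : 0 < c)
    (hE : Einstein e R c) (h : SecLE R (k * c)) :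
    (1 + (53 - 44 * k) / 1080 * (weylSq e R c / c ^ 2)) * roundGB c ≤ gbc e R ∧
      weylSq e R c / c ^ 2 ≤ 640 * (k - 1) ^ 2 := by
  have h1 := ein_core hk (scl_curv (tn_curv e hR) c⁻¹) (Rc_ein e hR hc hE)
    (fun x hx y => comp_bound1 e hR hc h x hx y)
  rw [nS_weyl e hR hc hE, gb_scl] at h1
  have hc3 : 0 < c ^ 3 := by positivity
  have hpi := Real.pi_pos
  refine ⟨?_, by linarith [h1.2]⟩
  have e1 : gbc e R = 1 / ((8 * Real.pi) ^ 3 * 6) * gb (tn e R) := gbc_eq e R
  have e2 : gb (tn e R) = c ^ 3 * (c⁻¹ ^ 3 * gb (tn e R)) := by field_simp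
  have h2 : (135 + (212 - 176 * k) * (weylSq e R c / c ^ 2 / 32)) * (5760 / 135) ≤
      c⁻¹ ^ 3 * gb (tn e R) := by linarith [h1.1]
  have h3 : 1 / ((8 * Real.pi) ^ 3 * 6) * (c ^ 3 *
      ((135 + (212 - 176 * k) * (weylSq e R c / c ^ 2 / 32)) * (5760 / 135))) =
      (1 + (53 - 44 * k) / 1080 * (weylSq e R c / c ^ 2)) * roundGB c := by
    unfold roundGB
    field_simp
    ring
  rw [← h3, e1, e2]
  exact mul_le_mul_of_nonneg_left (mul_le_mul_of_nonneg_left h2 hc3.le) (by positivity)

theorem weylSq_neg (R : V → V → V → V → ℝ) (c : ℝ) :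
    weylSq e (fun x y z w => - R x y z w) c = weylSq e R (-c) := by
  unfold weylSq
  refine Finset.sum_congr rfl fun a _ => Finset.sum_congr rfl fun b _ =>
    Finset.sum_congr rfl fun i _ => Finset.sum_congr rfl fun j _ => ?_
  ring

/-- the bound in terms of the squared norm of the Weyl tensor, negative case -/
theorem gbc_neg {k : ℝ} (hk : 1 ≤ k) (hR : AlgCurv R) {c : ℝ} (hc : 0 < c)
    (hE : Einstein e R (-c)) (h : SecGE R (-(k * c))) :
    gbc e R ≤ -((1 + (53 - 44 * k) / 1080 * (weylSq e R (-c) / c ^ 2)) * roundGB c) ∧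
      weylSq e R (-c) / c ^ 2 ≤ 640 * (k - 1) ^ 2 := by
  have hE' : Einstein e (fun x y z w => - R x y z w) c := by
    intro v w
    have := hE v w
    rw [Finset.sum_neg_distrib, this]
    ring
  have hS : SecLE (fun x y z w => - R x y z w) (k * c) := by
    intro x y hx hy hxy
    have := h x y hx hy hxy
    linarith
  have h1 := gbc_pos e hk (neg_curv hR) hc hE' hS
  rw [weylSq_neg] at h1
  refine ⟨?_, h1.2⟩
  have h2 : gbc e (fun x y z w => - R x y z w) = - gbc e R := by
    rw [gbc_eq, gbc_eq]
    have : tn e (fun x y z w => - R x y z w) = fun a b c d => - tn e R a b c d := rfl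
    rw [gb_neg]
    ring
  rw [h2] at h1
  linarith [h1.1]

/-- the Ricci trace in another orthonormal basis -/
theorem ein_basis (hR : AlgCurv R) {c : ℝ} (hE : Einstein e R c)
    (e' : OrthonormalBasis (Fin 6) ℝ V) : Einstein e' R c := by
  intro v w
  rw [← hE v w]
  have h1 : ∀ j, R (e' j) v (e' j) w =
      ∑ a, ∑ b, (inner ℝ (e a) (e' j) * inner ℝ (e b) (e' j)) * R (e a) v (e b) w := by
    intro j
    conv_lhs => rw [eq_vc e (e' j)]
    rw [lin1 e hR]
    refine Finset.sum_congr rfl fun a _ => ?_
    rw [lin3 e hR, Finset.mul_sum]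
    refine Finset.sum_congr rfl fun b _ => ?_
    ring
  have h2 : ∀ a b, ∑ j, inner ℝ (e a) (e' j) * inner ℝ (e b) (e' j) =
      if a = b then (1 : ℝ) else 0 := by
    intro a b
    have := e'.sum_inner_mul_inner (e a) (e b)
    rw [← orthonormal_iff_ite.1 e.orthonormal a b, ← this]
    refine Finset.sum_congr rfl fun j _ => ?_
    rw [real_inner_comm (e b) (e' j)]
  simp only [h1]
  rw [Finset.sum_comm]
  refine Finset.sum_congr rfl fun a _ => ?_
  rw [Finset.sum_comm]
  have h3 : ∀ b, ∑ j, (inner ℝ (e a) (e' j) * inner ℝ (e b) (e' j)) * R (e a) v (e b) w =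
      (if a = b then (1 : ℝ) else 0) * R (e a) v (e b) w := by
    intro b
    rw [← Finset.sum_mul, h2]
  simp only [h3]
  simp

/-- an upper bound of the sectional curvatures of an Einstein tensor bounds them from below -/
theorem sec_ge (hR : AlgCurv R) {c b : ℝ} (hE : Einstein e R c) (h : SecLE R b) :
    SecGE R (5 * c - 4 * b) := by
  intro x y hx hy hxy
  have : FiniteDimensional ℝ V := Module.Basis.finiteDimensional_of_finite e.toBasis
  have hcard : Module.finrank ℝ V = Fintype.card (Fin 6) := by
    rw [Module.finrank_eq_card_basis e.toBasis]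
  have hor : Orthonormal ℝ (Set.domRestrict {i : Fin 6 | i = 0 ∨ i = 1}
      (fun i : Fin 6 => if i = 0 then x else y)) := by
    rw [orthonormal_iff_ite]
    rintro ⟨i, hi⟩ ⟨j, hj⟩
    have hyx : inner ℝ y x = (0 : ℝ) := by rw [real_inner_comm, hxy]
    rcases hi with rfl | rfl <;> rcases hj with rfl | rfl <;>
      simp [Set.domRestrict, hxy, hyx, hx, hy]
  obtain ⟨e', he'⟩ := hor.exists_orthonormalBasis_extension_of_card_eq hcard
  have hx' : e' 0 = x := by
    have := he' 0 (Or.inl rfl)
    simpa using this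
  have hy' : e' 1 = y := by
    have := he' 1 (Or.inr rfl)
    simpa using this
  have hE' := ein_basis e hR hE e' x x
  rw [real_inner_self_eq_norm_sq, hx] at hE'
  have hi : ∀ i, i ≠ 0 → R (e' i) x (e' i) x ≤ b := by
    intro i hi
    refine h _ _ (e'.norm_eq_one i) hx ?_
    rw [← hx', orthonormal_iff_ite.1 e'.orthonormal, if_neg hi]
  have h00 : R (e' 0) x (e' 0) x = 0 := by
    rw [hx']
    exact R_xx hR x x x
  have h01 : R (e' 1) x (e' 1) x = R x y x y := by
    rw [hy', hR.anti x y y x, R_anti' hR x y x y, neg_neg]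
  rw [Fin.sum_univ_six, h00, h01] at hE'
  have a2 := hi 2 (by decide)
  have a3 := hi 3 (by decide)
  have a4 := hi 4 (by decide)
  have a5 := hi 5 (by decide)
  linarith

/-- a lower bound of the sectional curvatures of an Einstein tensor bounds them from above -/
theorem sec_le (hR : AlgCurv R) {c b : ℝ} (hE : Einstein e R c) (h : SecGE R b) :
    SecLE R (5 * c - 4 * b) := by
  have hE' : Einstein e (fun x y z w => - R x y z w) (-c) := by
    intro v w
    have := hE v w
    rw [Finset.sum_neg_distrib, this]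
    ring
  have hS : SecLE (fun x y z w => - R x y z w) (-b) := by
    intro x y hx hy hxy
    have := h x y hx hy hxy
    linarith
  have h1 := sec_ge e (neg_curv hR) hE' hS
  intro x y hx hy hxy
  have h2 := h1 x y hx hy hxy
  linarith

/-- the two-sided form of the factor -/
theorem factor_ge {k t : ℝ} (ht0 : 0 ≤ t) (ht : t ≤ 640 * (k - 1) ^ 2) :
    min 1 (pol k / 135) ≤ 1 + (53 - 44 * k) / 1080 * t := by
  by_cases h : k ≤ 53 / 44
  · refine (min_le_left _ _).trans ?_
    have : 0 ≤ (53 - 44 * k) / 1080 * t := mul_nonneg (by linarith) ht0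
    linarith
  · refine (min_le_right _ _).trans ?_
    have h1 : (53 - 44 * k) / 1080 * (640 * (k - 1) ^ 2) ≤ (53 - 44 * k) / 1080 * t :=
      mul_le_mul_of_nonpos_left ht (by linarith)
    have h2 : pol k / 135 = 1 + (53 - 44 * k) / 1080 * (640 * (k - 1) ^ 2) := by
      unfold pol
      ring
    linarith

end

end Pool.Agent.H31EE
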